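import Pool.Agent.Helper35.HS3.GoalsB

/-! Packet HS3-LAYER: a superharmonic function has little mass near the boundary. -/

namespace Pool.Agent.Helper61.HS3.LAYER

open Pool.Agent.Helper35.HS3
open MeasureTheory Set Filter Topology Metric
open scoped ContDiff

/-- the profile -/
noncomputable def H (τ s t : ℝ) : ℝ := s ^ 2 * (τ * t / s - 1 + Real.exp (-(τ * t / s)))

/-- its derivative -/
noncomputable def H' (τ s t : ℝ) : ℝ := s * τ * (1 - Real.exp (-(τ * t / s)))

theorem hasDerivAt_H {τ s : ℝ} (hs : 0 < s) (t : ℝ) : HasDerivAt (H τ s) (H' τ s t) t := by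
  have h1 : HasDerivAt (fun t => τ * t / s) (τ / s) t := by
    have := ((hasDerivAt_id t).const_mul τ).div_const s
    simpa using this
  have h1n : HasDerivAt (fun t => -(τ * t / s)) (-(τ / s)) t := h1.neg
  have h2 := ((h1.sub_const 1).add h1n.exp).const_mul (s ^ 2)
  refine h2.congr_deriv ?_
  unfold H'
  field_simp
  ring

theorem hasDerivAt_H' {τ s : ℝ} (hτ : τ = 1 ∨ τ = -1) (hs : 0 < s) (t : ℝ) :
    HasDerivAt (H' τ s) (Real.exp (-(τ * t / s))) t := by
  have h1 : HasDerivAt (fun t => τ * t / s) (τ / s) t := by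
    have := ((hasDerivAt_id t).const_mul τ).div_const s
    simpa using this
  have h1n : HasDerivAt (fun t => -(τ * t / s)) (-(τ / s)) t := h1.neg
  have h2 := (h1n.exp.const_sub 1).const_mul (s * τ)
  refine h2.congr_deriv ?_
  have hτ2 : τ ^ 2 = 1 := by rcases hτ with rfl | rfl <;> norm_num
  have e : s * τ * -(Real.exp (-(τ * t / s)) * -(τ / s)) = τ ^ 2 * Real.exp (-(τ * t / s)) := by
    field_simp
  calc _ = s * τ * -(Real.exp (-(τ * t / s)) * -(τ / s)) := rfl
    _ = _ := by rw [e, hτ2, one_mul]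

theorem contDiff_H (τ s : ℝ) : ContDiff ℝ 2 (H τ s) := by
  unfold H
  fun_prop

theorem H_nonneg {τ s t : ℝ} : 0 ≤ H τ s t := by
  unfold H
  have := Real.add_one_le_exp (-(τ * t / s))
  apply mul_nonneg (sq_nonneg s)
  linarith

theorem H_le {τ s t : ℝ} (hs : 0 < s) (ht : 0 ≤ τ * t) : H τ s t ≤ s * (τ * t) := by
  unfold H
  have h1 : Real.exp (-(τ * t / s)) ≤ 1 := by
    rw [Real.exp_le_one_iff]
    have : 0 ≤ τ * t / s := div_nonneg ht hs.le
    linarith
  have h2 : s ^ 2 * (τ * t / s - 1 + Real.exp (-(τ * t / s))) ≤ s ^ 2 * (τ * t / s) :=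
    mul_le_mul_of_nonneg_left (by linarith) (sq_nonneg s)
  calc _ ≤ s ^ 2 * (τ * t / s) := h2
    _ = s * (τ * t) := by field_simp

theorem H'_abs {τ s t : ℝ} (hτ : τ = 1 ∨ τ = -1) (hs : 0 < s) (ht : 0 ≤ τ * t) :
    |H' τ s t| ≤ s := by
  unfold H'
  have h1 : Real.exp (-(τ * t / s)) ≤ 1 := by
    rw [Real.exp_le_one_iff]
    have : 0 ≤ τ * t / s := div_nonneg ht hs.le
    linarith
  have h2 := Real.exp_pos (-(τ * t / s))
  have hτ1 : |τ| = 1 := by rcases hτ with rfl | rfl <;> norm_num
  rw [abs_mul, abs_mul, hτ1, mul_one, abs_of_pos hs, abs_of_nonneg (by linarith)]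
  nlinarith

theorem lap_coord (x : E) : lap (fun y : E => y 0) x = 0 := by
  unfold lap
  refine Finset.sum_eq_zero fun i _ => ?_
  have : pd i (fun y : E => y 0) = fun _ => if (0 : Fin 3) = i then 1 else 0 := by
    funext y
    exact pd_coord i 0 y
  rw [this]
  simp

theorem gsq_coord (x : E) : gsq (fun y : E => y 0) x = 1 := by
  unfold gsq
  simp [pd_coord]

theorem proof (hCUT : CUT_stmt) (hHPB : HPB_stmt) : LAYER_stmt := by
  obtain ⟨C₁, hC₁, hcut⟩ := hCUT
  refine ⟨8 * C₁ * Real.exp 1, by positivity, ?_⟩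
  intro τ w R δ hw hR hδ hδ1
  have hτ := hw.sgn
  set s : ℝ := δ * R with hsdef
  have hs : 0 < s := mul_pos hδ hR
  obtain ⟨χ, hχ, hχc, hχ01, hχ1, hχ0, hχp, hχpp⟩ := hcut R hR
  set G : E → ℝ := fun x => H τ s (x 0) with hG
  have hGc : ContDiff ℝ 2 G := (contDiff_H τ s).comp (contDiff_coord 0)
  have hpG : ∀ i x, pd i G x = H' τ s (x 0) * (if (0 : Fin 3) = i then 1 else 0) := by
    intro i x
    rw [hG, pd_comp (hasDerivAt_H hs (x 0)) (diff_of_one (contDiff_coord 0) x), pd_coord]
  have hlG : ∀ x, lap G x = Real.exp (-(τ * x 0 / s)) := by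
    intro x
    rw [hG, lap_comp (H := H τ s) (H' := H' τ s) (H'' := Real.exp (-(τ * x 0 / s)))
      (Eventually.of_forall fun t => hasDerivAt_H hs t) (hasDerivAt_H' hτ hs (x 0))
      (contDiff_coord 0).contDiffAt, lap_coord, gsq_coord]
    ring
  set Φ : E → ℝ := fun x => χ x * G x with hΦ
  have hΦc : ContDiff ℝ 2 Φ := hχ.mul hGc
  have hΦs : HasCompactSupport Φ := hχc.mul_right (f' := G)
  have hG0 : ∀ x : E, x 0 = 0 → G x = 0 := by
    intro x hx
    simp [hG, H, hx]
  have hpG0 : ∀ (i : Fin 3) (x : E), x 0 = 0 → pd i G x = 0 := by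
    intro i x hx
    rw [hpG]
    simp [H', hx]
  have hpΦ : ∀ i x, pd i Φ x = χ x * pd i G x + G x * pd i χ x := fun i x =>
    pd_mul (diff_of_two hχ x) (diff_of_two hGc x)
  -- the vector field
  set φ : Fin 3 → E → ℝ := fun j x => Φ x * pd j w x - w x * pd j Φ x with hφ
  have hφc : ∀ j, ContDiff ℝ 1 (φ j) := fun j =>
    ((hΦc.of_le (by norm_num)).mul (contDiff_one_pd hw.smooth)).sub
      ((hw.smooth.of_le (by norm_num)).mul (contDiff_one_pd hΦc))
  have hφs : ∀ j, HasCompactSupport (φ j) := fun j =>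
    (hΦs.mul_right (f' := pd j w)).sub ((hasCompactSupport_pd j hΦs).mul_left (f := w))
  have hφ0 : ∀ j, ∀ x : E, x 0 = 0 → φ j x = 0 := by
    intro j x hx
    simp only [hφ]
    rw [hpΦ, hpG0 j x hx]
    simp only [hΦ]
    rw [hG0 x hx]
    ring
  have hpφ : ∀ j x, pd j (φ j) x = Φ x * pd j (pd j w) x - w x * pd j (pd j Φ) x := by
    intro j x
    have d1 := diff_of_two hΦc x
    have d2 := diff_pd hw.smooth j x
    have d3 := diff_of_two hw.smooth x
    have d4 := diff_pd hΦc j x
    simp only [hφ]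
    rw [pd_sub (u := fun x => Φ x * pd j w x) (v := fun x => w x * pd j Φ x) (d1.mul d2)
      (d3.mul d4), pd_mul d1 d2, pd_mul d3 d4]
    ring
  have hsum : ∀ x, ∑ j, pd j (φ j) x = Φ x * lap w x - w x * lap Φ x := by
    intro x
    simp only [hpφ, lap]
    rw [Finset.sum_sub_distrib, Finset.mul_sum, Finset.mul_sum]
  have hint : ∀ j, Integrable (pd j (φ j)) := fun j =>
    (continuous_pd (hφc j)).integrable_of_hasCompactSupport (hasCompactSupport_pd j (hφs j))
  have hzero : ∫ x in Hs τ, (Φ x * lap w x - w x * lap Φ x) = 0 := by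
    have h1 : ∀ j, ∫ x in Hs τ, pd j (φ j) x = 0 := fun j =>
      hHPB.1 τ j (φ j) hτ (hφc j) (hφs j) (Or.inr (hφ0 j))
    calc ∫ x in Hs τ, (Φ x * lap w x - w x * lap Φ x)
        = ∫ x in Hs τ, ∑ j, pd j (φ j) x := by
          refine integral_congr_ae (Eventually.of_forall fun x => ?_)
          exact (hsum x).symm
      _ = ∑ j, ∫ x in Hs τ, pd j (φ j) x :=
          integral_finsetSum _ fun j _ => (hint j).integrableOn
      _ = 0 := Finset.sum_eq_zero fun j _ => h1 j
  have hintT : IntegrableOn (fun x => w x * lap Φ x - Φ x * lap w x) (Hs τ) := by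
    have h1 : Integrable (fun x => -∑ j, pd j (φ j) x) :=
      (integrable_finsetSum _ fun j _ => hint j).neg
    have e : (fun x => w x * lap Φ x - Φ x * lap w x) = fun x => -∑ j, pd j (φ j) x := by
      funext x
      rw [hsum]
      ring
    rw [e]
    exact h1.integrableOn
  set L : Set E := ball (0 : E) R ∩ {x | τ * x 0 < δ * R} with hL
  have hLm : MeasurableSet L := by
    refine measurableSet_ball.inter ?_
    have : Continuous fun x : E => τ * x 0 :=
      continuous_const.mul (contDiff_coord 0 (n := 0)).continuous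
    exact (isOpen_lt this continuous_const).measurableSet
  have hwc : Continuous w := hw.smooth.continuous
  have hintL : IntegrableOn (L.indicator fun x => Real.exp (-1) * w x) (Hs τ) := by
    have h1 : IntegrableOn (fun x => Real.exp (-1) * w x) L :=
      (integrableOn_ball (continuous_const.mul hwc) 0 R).mono_set inter_subset_left
    exact ((integrable_indicator_iff hLm).2 h1).integrableOn
  have hintB : IntegrableOn ((ball (0 : E) (3 * R)).indicator fun x => 8 * C₁ * δ * w x) (Hs τ) := by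
    have h1 : IntegrableOn (fun x => 8 * C₁ * δ * w x) (ball (0 : E) (3 * R)) :=
      integrableOn_ball (continuous_const.mul hwc) 0 (3 * R)
    exact ((integrable_indicator_iff measurableSet_ball).2 h1).integrableOn
  -- the pointwise inequality
  have hpt : ∀ x ∈ Hs τ, L.indicator (fun x => Real.exp (-1) * w x) x -
      (ball (0 : E) (3 * R)).indicator (fun x => 8 * C₁ * δ * w x) x ≤
      w x * lap Φ x - Φ x * lap w x := by
    intro x hx
    have hx0 : 0 < τ * x 0 := hx
    have hwx : 0 ≤ w x := hw.nonneg x hx0.le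
    have hlw : lap w x ≤ 0 := hw.super x hx
    have hGx : 0 ≤ G x := H_nonneg
    have hΦx : 0 ≤ Φ x := mul_nonneg (hχ01 x).1 hGx
    have h1 : 0 ≤ -(Φ x * lap w x) := by nlinarith
    have hLle : L.indicator (fun x => Real.exp (-1) * w x) x ≤
        w x * (χ x * Real.exp (-(τ * x 0 / s))) := by
      by_cases hxL : x ∈ L
      · rw [indicator_of_mem hxL]
        obtain ⟨hxb, hxs⟩ := hxL
        have hxs' : τ * x 0 < δ * R := hxs
        have hxn : ‖x‖ < R := by simpa using hxb
        rw [hχ1 x hxn.le, one_mul, mul_comm]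
        refine mul_le_mul_of_nonneg_left ?_ hwx
        apply Real.exp_le_exp.2
        have : τ * x 0 / s ≤ 1 := by
          rw [div_le_one hs]
          exact hxs'.le
        linarith
      · rw [indicator_of_notMem hxL]
        have := (hχ01 x).1
        have := Real.exp_pos (-(τ * x 0 / s))
        positivity
    have hlΦ : lap Φ x = χ x * Real.exp (-(τ * x 0 / s)) + G x * lap χ x + 2 * gdot χ G x := by
      rw [hΦ, lap_mul hχ.contDiffAt hGc.contDiffAt, hlG]
    by_cases hx2 : ‖x‖ ≤ 2 * R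
    · have hxB : x ∈ ball (0 : E) (3 * R) := by
        rw [mem_ball_zero_iff]
        linarith
      rw [indicator_of_mem hxB]
      have hτx : τ * x 0 ≤ 2 * R := by
        have h2 := abs_coord_le x 0
        have h3 : τ * x 0 ≤ |x 0| := by
          rcases hτ with rfl | rfl
          · rw [one_mul]; exact le_abs_self _
          · rw [neg_one_mul]; exact neg_le_abs _
        linarith
      have hGle : G x ≤ 2 * δ * R ^ 2 := by
        have h2 : G x ≤ s * (τ * x 0) := H_le hs hx0.le
        have h3 : s * (τ * x 0) ≤ s * (2 * R) := mul_le_mul_of_nonneg_left hτx hs.le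
        calc G x ≤ s * (2 * R) := h2.trans h3
          _ = 2 * δ * R ^ 2 := by rw [hsdef]; ring
      have hlχ : |lap χ x| ≤ 3 * (C₁ / R ^ 2) := by
        unfold lap
        rw [Fin.sum_univ_three]
        have a0 := hχpp x 0 0
        have a1 := hχpp x 1 1
        have a2 := hχpp x 2 2
        calc _ ≤ |pd 0 (pd 0 χ) x| + |pd 1 (pd 1 χ) x| + |pd 2 (pd 2 χ) x| := abs_add_three _ _ _
          _ ≤ 3 * (C₁ / R ^ 2) := by linarith
      have h4 : |G x * lap χ x| ≤ 6 * C₁ * δ := by
        rw [abs_mul, abs_of_nonneg hGx]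
        calc G x * |lap χ x| ≤ (2 * δ * R ^ 2) * (3 * (C₁ / R ^ 2)) :=
              mul_le_mul hGle hlχ (abs_nonneg _) (by positivity)
          _ = 6 * C₁ * δ := by field_simp; ring
      have h5 : |2 * gdot χ G x| ≤ 2 * C₁ * δ := by
        have e : gdot χ G x = pd 0 χ x * H' τ s (x 0) := by
          unfold gdot
          rw [Fin.sum_univ_three, hpG, hpG, hpG]
          simp
        rw [e, abs_mul, abs_mul, abs_two]
        calc 2 * (|pd 0 χ x| * |H' τ s (x 0)|) ≤ 2 * ((C₁ / R) * s) :=
              mul_le_mul_of_nonneg_left (mul_le_mul (hχp x 0) (H'_abs hτ hs hx0.le)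
                (abs_nonneg _) (by positivity)) (by norm_num)
          _ = 2 * C₁ * δ := by rw [hsdef]; field_simp
      have h6 := (abs_le.1 h4).1
      have h7 := (abs_le.1 h5).1
      have h8 : w x * (χ x * Real.exp (-(τ * x 0 / s)) - 8 * C₁ * δ) ≤ w x * lap Φ x := by
        refine mul_le_mul_of_nonneg_left ?_ hwx
        rw [hlΦ]
        linarith
      linarith
    · push Not at hx2
      have hχe : χ =ᶠ[𝓝 x] fun _ => 0 := by
        have h2 : IsOpen {y : E | 2 * R < ‖y‖} := isOpen_lt continuous_const continuous_norm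
        filter_upwards [h2.mem_nhds hx2] with y hy using hχ0 y (le_of_lt hy)
      have h4 : lap χ x = 0 := by rw [lap_congr hχe, lap_const]
      have h5 : gdot χ G x = 0 := by
        unfold gdot
        refine Finset.sum_eq_zero fun i _ => ?_
        rw [pd_congr hχe, pd_const, zero_mul]
      rw [h4, h5, mul_zero, mul_zero, add_zero, add_zero] at hlΦ
      rw [hlΦ]
      have h6 : 0 ≤ (ball (0 : E) (3 * R)).indicator (fun x => 8 * C₁ * δ * w x) x := by
        by_cases h7 : x ∈ ball (0 : E) (3 * R)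
        · rw [indicator_of_mem h7]
          positivity
        · rw [indicator_of_notMem h7]
      linarith
  have hle := setIntegral_mono_on (hintL.sub hintB) hintT (measurableSet_Hs τ) hpt
  have hrhs : ∫ x in Hs τ, (w x * lap Φ x - Φ x * lap w x) = 0 := by
    have e : ∀ x, w x * lap Φ x - Φ x * lap w x = -(Φ x * lap w x - w x * lap Φ x) := fun x => by
      ring
    simp only [e]
    rw [integral_neg, hzero, neg_zero]
  rw [hrhs] at hle
  have hlhs : ∫ x in Hs τ, (L.indicator (fun x => Real.exp (-1) * w x) x -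
      (ball (0 : E) (3 * R)).indicator (fun x => 8 * C₁ * δ * w x) x) =
      Real.exp (-1) * (∫ x in Hs τ ∩ ball (0 : E) R ∩ {x | τ * x 0 < δ * R}, w x) -
        8 * C₁ * δ * ∫ x in Hs τ ∩ ball (0 : E) (3 * R), w x := by
    rw [integral_sub hintL hintB, setIntegral_indicator hLm, setIntegral_indicator measurableSet_ball,
      integral_const_mul, integral_const_mul, hL, ← inter_assoc]
  have hle' : Real.exp (-1) * (∫ x in Hs τ ∩ ball (0 : E) R ∩ {x | τ * x 0 < δ * R}, w x) -
        8 * C₁ * δ * ∫ x in Hs τ ∩ ball (0 : E) (3 * R), w x ≤ 0 := by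
    rw [← hlhs]
    exact hle
  have he : Real.exp 1 * Real.exp (-1) = 1 := by rw [← Real.exp_add]; simp
  calc ∫ x in Hs τ ∩ ball (0 : E) R ∩ {x | τ * x 0 < δ * R}, w x
      = Real.exp 1 * (Real.exp (-1) *
        ∫ x in Hs τ ∩ ball (0 : E) R ∩ {x | τ * x 0 < δ * R}, w x) := by
        rw [← mul_assoc, he, one_mul]
    _ ≤ Real.exp 1 * (8 * C₁ * δ * ∫ x in Hs τ ∩ ball (0 : E) (3 * R), w x) :=
        mul_le_mul_of_nonneg_left (by linarith) (Real.exp_pos 1).le
    _ = 8 * C₁ * Real.exp 1 * δ * ∫ x in Hs τ ∩ ball (0 : E) (3 * R), w x := by ring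

end Pool.Agent.Helper61.HS3.LAYER
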