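import Pool.Agent.Helper35.HS3.GoalsB

/-! Packet HS3-LB: lower bound of a superharmonic function by its mass far from the plane. -/

namespace Pool.Agent.Helper61.HS3.LB

open Pool.Agent.Helper35.HS3
open MeasureTheory Set Filter Topology Metric
open scoped ContDiff

theorem abs_tau {τ : ℝ} (hτ : τ = 1 ∨ τ = -1) (a : ℝ) : |τ * a| = |a| := by
  rcases hτ with rfl | rfl <;> simp

/-- the case of a fixed `τ` -/
theorem aux {c₀ : ℝ} (hc₀ : 0 < c₀) (hLBB : ∀ (τ : ℝ) (w : E → ℝ) (z x : E) (ρ R : ℝ), SH τ w →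
    0 < ρ → 8 * ρ ≤ τ * z 0 → ‖z‖ ≤ R → x ∈ Hs τ → ‖x‖ ≤ R →
    c₀ * (τ * x 0) * ∫ y in ball z ρ, w y ≤ ρ * R ^ 3 * w x) {δ : ℝ} (hδ : 0 < δ) {τ : ℝ}
    (hτ : τ = 1 ∨ τ = -1) :
    ∃ c > 0, ∀ (w : E → ℝ) (R : ℝ) (x : E), SH τ w → 0 < R →
    x ∈ Hs τ → ‖x‖ ≤ R →
    c * (τ * x 0) * ∫ y in ball (0 : E) R ∩ {y | δ * R ≤ τ * y 0}, w y ≤ R ^ 4 * w x := by
  have hcont : Continuous fun x : E => τ * x 0 :=
    continuous_const.mul (contDiff_coord 0 (n := 0)).continuous
  have hK : IsCompact (closedBall (0 : E) 1 ∩ {ζ | δ ≤ τ * ζ 0}) :=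
    (isCompact_closedBall (0 : E) 1).inter_right (isClosed_le continuous_const hcont)
  obtain ⟨t, htK, htf, htc⟩ := hK.finite_cover_balls (show 0 < δ / 8 by positivity)
  set N : ℝ := (htf.toFinset.card : ℝ) + 1 with hN
  have hN0 : 0 < N := by positivity
  refine ⟨8 * c₀ / (N * δ), by positivity, ?_⟩
  intro w R x hw hR hx hxR
  have hx0 : 0 < τ * x 0 := hx
  have hwx : 0 ≤ w x := hw.nonneg x hx0.le
  set ρ : ℝ := δ * R / 8 with hρ
  have hρ0 : 0 < ρ := by positivity
  have hwc : Continuous w := hw.smooth.continuous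
  set L : Set E := ball (0 : E) R ∩ {y | δ * R ≤ τ * y 0} with hL
  have hLm : MeasurableSet L :=
    measurableSet_ball.inter (isClosed_le continuous_const hcont).measurableSet
  -- the balls are in the half-space
  have hball : ∀ z ∈ t, ∀ y ∈ ball (R • z) ρ, 0 ≤ w y := by
    intro z hz y hy
    apply hw.nonneg
    have h1 : δ ≤ τ * z 0 := (htK hz).2
    have h2 : |τ * (y 0 - R * z 0)| ≤ ρ := by
      rw [abs_tau hτ]
      have h3 := abs_coord_le (y - R • z) 0
      rw [mem_ball, dist_eq_norm] at hy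
      have e : (y - R • z) 0 = y 0 - R * z 0 := by simp
      rw [e] at h3
      linarith
    have h4 := (abs_le.1 h2).1
    have h5 : δ * R ≤ R * (τ * z 0) := by
      rw [mul_comm δ R]
      exact mul_le_mul_of_nonneg_left h1 hR.le
    have h6 : τ * (y 0 - R * z 0) = τ * y 0 - R * (τ * z 0) := by ring
    rw [h6] at h4
    have : ρ ≤ δ * R := by
      rw [hρ]
      have : 0 ≤ δ * R := by positivity
      linarith
    linarith
  have hpt : ∀ y, L.indicator w y ≤ ∑ z ∈ htf.toFinset, (ball (R • z) ρ).indicator w y := by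
    intro y
    have hnn : ∀ z ∈ htf.toFinset, 0 ≤ (ball (R • z) ρ).indicator w y := by
      intro z hz
      by_cases hy : y ∈ ball (R • z) ρ
      · rw [indicator_of_mem hy]
        exact hball z (htf.mem_toFinset.1 hz) y hy
      · rw [indicator_of_notMem hy]
    by_cases hy : y ∈ L
    · rw [indicator_of_mem hy]
      obtain ⟨hyb, hys⟩ := hy
      have hys' : δ * R ≤ τ * y 0 := hys
      have hyn : ‖y‖ < R := by simpa using hyb
      have hζ : R⁻¹ • y ∈ closedBall (0 : E) 1 ∩ {ζ | δ ≤ τ * ζ 0} := by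
        constructor
        · rw [mem_closedBall_zero_iff, norm_smul, norm_inv, Real.norm_eq_abs, abs_of_pos hR,
            inv_mul_le_iff₀ hR]
          linarith
        · change δ ≤ τ * (R⁻¹ • y) 0
          have e : τ * (R⁻¹ • y) 0 = τ * y 0 / R := by
            simp
            ring
          rw [e, le_div_iff₀ hR]
          exact hys'
      obtain ⟨z, hz, hzy⟩ : ∃ z ∈ t, R⁻¹ • y ∈ ball z (δ / 8) := by
        simpa using htc hζ
      have hyz : y ∈ ball (R • z) ρ := by
        rw [mem_ball, dist_eq_norm] at hzy ⊢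
        have e : y - R • z = R • (R⁻¹ • y - z) := by
          rw [smul_sub, smul_smul, mul_inv_cancel₀ hR.ne', one_smul]
        rw [e, norm_smul, Real.norm_eq_abs, abs_of_pos hR]
        calc R * ‖R⁻¹ • y - z‖ < R * (δ / 8) := mul_lt_mul_of_pos_left hzy hR
          _ = ρ := by rw [hρ]; ring
      have h1 := Finset.single_le_sum hnn (htf.mem_toFinset.2 hz)
      rw [indicator_of_mem hyz] at h1
      exact h1
    · rw [indicator_of_notMem hy]
      exact Finset.sum_nonneg hnn
  have hintL : Integrable (L.indicator w) :=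
    (integrable_indicator_iff hLm).2 ((integrableOn_ball hwc 0 R).mono_set inter_subset_left)
  have hintB : ∀ z : E, Integrable ((ball z ρ).indicator w) := fun z =>
    (integrable_indicator_iff measurableSet_ball).2 (integrableOn_ball hwc z ρ)
  have hle : ∫ y in L, w y ≤ ∑ z ∈ htf.toFinset, ∫ y in ball (R • z) ρ, w y := by
    have h1 := integral_mono hintL (integrable_finsetSum htf.toFinset
      fun z _ => hintB (R • z)) hpt
    rw [integral_indicator hLm, integral_finsetSum _ fun z _ => hintB (R • z)] at h1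
    simp only [integral_indicator measurableSet_ball] at h1
    exact h1
  have hone : ∀ z ∈ htf.toFinset, c₀ * (τ * x 0) * ∫ y in ball (R • z) ρ, w y ≤ ρ * R ^ 3 * w x := by
    intro z hz
    have hzK := htK (htf.mem_toFinset.1 hz)
    have h1 : δ ≤ τ * z 0 := hzK.2
    have h2 : ‖z‖ ≤ 1 := by simpa using hzK.1
    refine hLBB τ w (R • z) x ρ R hw hρ0 ?_ ?_ hx hxR
    · have e : τ * (R • z) 0 = R * (τ * z 0) := by
        simp
        ring
      rw [e, hρ]
      have := mul_le_mul_of_nonneg_left h1 hR.le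
      linarith
    · rw [norm_smul, Real.norm_eq_abs, abs_of_pos hR]
      nlinarith
  have htot : c₀ * (τ * x 0) * ∫ y in L, w y ≤ N * (ρ * R ^ 3 * w x) := by
    have h0 : 0 ≤ c₀ * (τ * x 0) := by positivity
    calc c₀ * (τ * x 0) * ∫ y in L, w y
        ≤ c₀ * (τ * x 0) * ∑ z ∈ htf.toFinset, ∫ y in ball (R • z) ρ, w y :=
          mul_le_mul_of_nonneg_left hle h0
      _ = ∑ z ∈ htf.toFinset, c₀ * (τ * x 0) * ∫ y in ball (R • z) ρ, w y := Finset.mul_sum _ _ _
      _ ≤ ∑ z ∈ htf.toFinset, ρ * R ^ 3 * w x := Finset.sum_le_sum hone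
      _ = (htf.toFinset.card : ℝ) * (ρ * R ^ 3 * w x) := by
          rw [Finset.sum_const, nsmul_eq_mul]
      _ ≤ N * (ρ * R ^ 3 * w x) := by
          apply mul_le_mul_of_nonneg_right _ (by positivity)
          rw [hN]
          linarith
  have hNδ : 0 < N * δ := by positivity
  have e1 : 8 * c₀ / (N * δ) * (τ * x 0) * ∫ y in L, w y =
      8 / (N * δ) * (c₀ * (τ * x 0) * ∫ y in L, w y) := by ring
  rw [e1]
  calc 8 / (N * δ) * (c₀ * (τ * x 0) * ∫ y in L, w y) ≤ 8 / (N * δ) * (N * (ρ * R ^ 3 * w x)) :=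
        mul_le_mul_of_nonneg_left htot (by positivity)
    _ = R ^ 4 * w x := by rw [hρ]; field_simp

theorem proof (h : LBB_stmt) : LB_stmt := by
  obtain ⟨c₀, hc₀, hLBB⟩ := h
  intro δ hδ _
  obtain ⟨c1, hc1, h1⟩ := aux hc₀ hLBB hδ (τ := 1) (Or.inl rfl)
  obtain ⟨c2, hc2, h2⟩ := aux hc₀ hLBB hδ (τ := -1) (Or.inr rfl)
  refine ⟨min c1 c2, lt_min hc1 hc2, ?_⟩
  intro τ w R x hw hR hx hxR
  have hx0 : 0 < τ * x 0 := hx
  have hnn : 0 ≤ ∫ y in ball (0 : E) R ∩ {y | δ * R ≤ τ * y 0}, w y := by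
    refine setIntegral_nonneg ?_ ?_
    · have hcont : Continuous fun x : E => τ * x 0 :=
        continuous_const.mul (contDiff_coord 0 (n := 0)).continuous
      exact measurableSet_ball.inter (isClosed_le continuous_const hcont).measurableSet
    · intro y hy
      have : δ * R ≤ τ * y 0 := hy.2
      have h3 : 0 ≤ δ * R := by positivity
      exact hw.nonneg y (h3.trans this)
  rcases hw.sgn with hτ | hτ
  · subst hτ
    refine le_trans ?_ (h1 w R x hw hR hx hxR)
    gcongr
    exact min_le_left _ _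
  · subst hτ
    refine le_trans ?_ (h2 w R x hw hR hx hxR)
    gcongr
    exact min_le_right _ _

end Pool.Agent.Helper61.HS3.LB
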